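import Pool.Agent.T9h59.MDM.Sets

/-!
No terminal is interior to a segment of both trees.
-/

set_option autoImplicit false

namespace Pool.Agent.T9h59.MDM

open Finset MeasureTheory
open scoped ENNReal

noncomputable section

theorem seg_inner {u v p q : P2} (h : p ∈ segment ℝ u v) :
    ∃ t : ℝ, 0 ≤ t ∧ t ≤ 1 ∧ p = (1 - t) • u + t • v ∧
      inner ℝ q p = (1 - t) * inner ℝ q u + t * inner ℝ q v := by
  obtain ⟨a, b, ha, hb, hab, rfl⟩ := h
  obtain rfl : a = 1 - b := by linarith
  exact ⟨b, hb, by linarith, rfl, by rw [inner_add_right, inner_smul_right, inner_smul_right]⟩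

theorem seg_lt {u v p q : P2} {m : ℝ} (hu : inner ℝ q u < m) (hv : inner ℝ q v < m)
    (h : p ∈ segment ℝ u v) : inner ℝ q p < m := by
  obtain ⟨t, h0, h1, -, h2⟩ := seg_inner (q := q) h
  rw [h2]
  rcases eq_or_lt_of_le h0 with rfl | h0
  · simpa using hu
  · nlinarith

theorem seg_le {u v p q : P2} {m : ℝ} (hu : inner ℝ q u ≤ m) (hv : inner ℝ q v ≤ m)
    (h : p ∈ segment ℝ u v) : inner ℝ q p ≤ m := by
  obtain ⟨t, h0, h1, -, h2⟩ := seg_inner (q := q) h
  rw [h2]
  nlinarith

theorem seg_lt_end {u v p q : P2} {m : ℝ} (hu : inner ℝ q u < m) (hv : inner ℝ q v = m)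
    (h : p ∈ segment ℝ u v) : p = v ∨ inner ℝ q p < m := by
  obtain ⟨t, h0, h1, h3, h2⟩ := seg_inner (q := q) h
  rcases eq_or_lt_of_le h1 with rfl | h1
  · left
    rw [h3]; simp
  · right
    rw [h2, hv]
    nlinarith

theorem inner_w_cS (c : Bool × Bool) (s : Bool) :
    inner ℝ (w c) (cS s) < (1 + √3) / 2 + 1 / 100 := by
  rw [inner_P2]
  have := aa_lt
  have := aa_pos
  have := s3_gt
  rcases c with ⟨_ | _, _ | _⟩ <;> cases s <;> simp [w, cS, sg] <;> linarith

theorem inner_w_tip_ne {c c' : Bool × Bool} (h : c' ≠ c) :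
    inner ℝ (w c) (tip c') < (1 + √3) / 2 + 1 / 100 := by
  rw [inner_P2]
  have := s3
  have := s3_gt
  have := s3_lt
  rcases c with ⟨_ | _, _ | _⟩ <;> rcases c' with ⟨_ | _, _ | _⟩ <;>
    first
      | exact absurd rfl h
      | (simp [w, tip, cor, sg]; nlinarith)

/-- `tip c` is the only point of the first tree at which `⟨w c, ·⟩` is as large as there -/
theorem SS_lt {c : Bool × Bool} {p : P2} (hp : p ∈ SS) :
    p = tip c ∨ inner ℝ (w c) p < (1 + √3) / 2 + 1 / 100 := by
  rcases hp with hp | hp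
  · exact Or.inr (seg_lt (inner_w_cS c _) (inner_w_cS c _) hp)
  · obtain ⟨c', hc'⟩ := Set.mem_iUnion.1 hp
    by_cases h : c' = c
    · subst h
      exact seg_lt_end (inner_w_cS c' _) (inner_w_tip c') hc'
    · exact Or.inr (seg_lt (inner_w_cS c _) (inner_w_tip_ne h) hc')

theorem tip_not_interior (c : Bool × Bool) {x y : P2} (hxy : x ≠ y) (h : segment ℝ x y ⊆ SS)
    (hc : tip c ∈ openSegment ℝ x y) : False := by
  obtain ⟨a, b, ha, hb, hab, e⟩ := hc
  have e1 : a * inner ℝ (w c) x + b * inner ℝ (w c) y = (1 + √3) / 2 + 1 / 100 := by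
    rw [← inner_w_tip c, ← e, inner_add_right, inner_smul_right, inner_smul_right]
  obtain rfl : b = 1 - a := by linarith
  have hx := SS_lt (c := c) (h (left_mem_segment ℝ x y))
  have hy := SS_lt (c := c) (h (right_mem_segment ℝ x y))
  have hx' : inner ℝ (w c) x ≤ (1 + √3) / 2 + 1 / 100 := by
    rcases hx with rfl | hx
    · exact (inner_w_tip c).le
    · exact hx.le
  have hy' : inner ℝ (w c) y ≤ (1 + √3) / 2 + 1 / 100 := by
    rcases hy with rfl | hy
    · exact (inner_w_tip c).le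
    · exact hy.le
  rcases hx with hx | hx
  · rcases hy with hy | hy
    · exact hxy (hx.trans hy.symm)
    · nlinarith
  · nlinarith

/-- the part of the second tree in the quadrant of the corner `c` -/
theorem TT_lt {c : Bool × Bool} {p : P2} (hp : p ∈ TT) (h0 : 0 < sg c.1 * p 0)
    (h1 : 0 < sg c.2 * p 1) : p = cor c ∨ inner ℝ (g c) p < 0 := by
  have hinner0 : ∀ q : P2, inner ℝ (!₂[sg c.1, 0] : P2) q = sg c.1 * q 0 := by
    intro q; rw [inner_P2]; simp
  have hinner1 : ∀ q : P2, inner ℝ (!₂[0, sg c.2] : P2) q = sg c.2 * q 1 := by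
    intro q; rw [inner_P2]; simp
  have k := s3_pos
  have k1 := s3_lt
  have k2 := s3_gt
  have k3 := s3
  have k4 := aa_pos
  have htip : inner ℝ (g c) (tip c) < 0 := by
    rw [inner_P2]
    rcases c with ⟨_ | _, _ | _⟩ <;> simp [g, tip, cor, w, sg] <;> nlinarith
  have hcT : inner ℝ (g c) (cT c.2) < 0 := by
    rw [inner_P2]
    rcases c with ⟨_ | _, _ | _⟩ <;> simp [g, cT, sg] <;> nlinarith
  rcases hp with (hp | hp) | hp
  · exfalso
    have : inner ℝ (!₂[sg c.1, 0] : P2) p ≤ 0 := by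
      refine seg_le ?_ ?_ hp <;> rw [hinner0] <;> simp [cT]
    rw [hinner0] at this
    linarith
  · obtain ⟨c', hc'⟩ := Set.mem_iUnion.1 hp
    by_cases e0 : c'.1 = c.1
    · by_cases e1 : c'.2 = c.2
      · obtain rfl : c' = c := Prod.ext e0 e1
        exact seg_lt_end hcT (inner_g_cor c') hc'
      · exfalso
        have : inner ℝ (!₂[0, sg c.2] : P2) p ≤ 0 := by
          refine seg_le ?_ ?_ hc' <;> rw [hinner1]
          · rcases c with ⟨_ | _, _ | _⟩ <;> rcases c' with ⟨_ | _, _ | _⟩ <;>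
              simp [cT, sg] at e1 ⊢ <;> linarith
          · rcases c with ⟨_ | _, _ | _⟩ <;> rcases c' with ⟨_ | _, _ | _⟩ <;>
              simp [cor, sg] at e1 ⊢
        rw [hinner1] at this
        linarith
    · exfalso
      have : inner ℝ (!₂[sg c.1, 0] : P2) p ≤ 0 := by
        refine seg_le ?_ ?_ hc' <;> rw [hinner0]
        · simp [cT]
        · rcases c with ⟨_ | _, _ | _⟩ <;> rcases c' with ⟨_ | _, _ | _⟩ <;>
            simp [cor, sg] at e0 ⊢
      rw [hinner0] at this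
      linarith
  · obtain ⟨c', hc'⟩ := Set.mem_iUnion.1 hp
    by_cases e0 : c'.1 = c.1
    · by_cases e1 : c'.2 = c.2
      · obtain rfl : c' = c := Prod.ext e0 e1
        rw [segment_symm] at hc'
        exact seg_lt_end htip (inner_g_cor c') hc'
      · exfalso
        have : inner ℝ (!₂[0, sg c.2] : P2) p ≤ 0 := by
          refine seg_le ?_ ?_ hc' <;> rw [hinner1]
          · rcases c with ⟨_ | _, _ | _⟩ <;> rcases c' with ⟨_ | _, _ | _⟩ <;>
              simp [cor, sg] at e1 ⊢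
          · rcases c with ⟨_ | _, _ | _⟩ <;> rcases c' with ⟨_ | _, _ | _⟩ <;>
              simp [tip, cor, w, sg] at e1 ⊢ <;> linarith
        rw [hinner1] at this
        linarith
    · exfalso
      have : inner ℝ (!₂[sg c.1, 0] : P2) p ≤ 0 := by
        refine seg_le ?_ ?_ hc' <;> rw [hinner0]
        · rcases c with ⟨_ | _, _ | _⟩ <;> rcases c' with ⟨_ | _, _ | _⟩ <;>
            simp [cor, sg] at e0 ⊢
        · rcases c with ⟨_ | _, _ | _⟩ <;> rcases c' with ⟨_ | _, _ | _⟩ <;>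
            simp [tip, cor, w, sg] at e0 ⊢ <;> linarith
      rw [hinner0] at this
      linarith

theorem cor_not_interior (c : Bool × Bool) {x y : P2} (hxy : x ≠ y) (h : segment ℝ x y ⊆ TT)
    (hc : cor c ∈ openSegment ℝ x y) : False := by
  obtain ⟨a, b, ha, hb, hab, e⟩ := hc
  obtain rfl : a = 1 - b := by linarith
  -- points of the segment near the corner
  let f : ℝ → P2 := fun s => cor c + s • (y - x)
  have hf : ∀ s, -b ≤ s → s ≤ 1 - b → f s ∈ TT := by
    intro s h1 h2
    apply h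
    refine ⟨1 - b - s, b + s, by linarith, by linarith, by ring, ?_⟩
    show (1 - b - s) • x + (b + s) • y = cor c + s • (y - x)
    rw [← e]
    module
  have hcont0 : Continuous fun s => sg c.1 * f s 0 := by
    have : Continuous f := by fun_prop
    fun_prop
  have hcont1 : Continuous fun s => sg c.2 * f s 1 := by
    have : Continuous f := by fun_prop
    fun_prop
  have hf0 : f 0 = cor c := by simp [f]
  have hev : ∀ᶠ s in nhds (0 : ℝ), (0 < sg c.1 * f s 0 ∧ 0 < sg c.2 * f s 1) ∧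
      (-b < s ∧ s < 1 - b) ∧ (-b < -s ∧ -s < 1 - b) ∧
      (0 < sg c.1 * f (-s) 0 ∧ 0 < sg c.2 * f (-s) 1) := by
    have p0 : 0 < sg c.1 * f 0 0 := by rw [hf0]; simp [cor, sg_sq]
    have p1 : 0 < sg c.2 * f 0 1 := by rw [hf0]; simp [cor, sg_sq]
    have hn : Filter.Tendsto (fun s : ℝ => -s) (nhds 0) (nhds 0) := by
      have := (continuous_neg (G := ℝ)).tendsto 0
      simpa using this
    have q0 := hcont0.continuousAt.eventually_const_lt p0
    have q1 := hcont1.continuousAt.eventually_const_lt p1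
    have q2 : ∀ᶠ s in nhds (0 : ℝ), -b < s ∧ s < 1 - b :=
      (Ioo_mem_nhds (by linarith) (by linarith) : Set.Ioo (-b) (1 - b) ∈ nhds (0 : ℝ))
    filter_upwards [q0, q1, q2, hn.eventually q2, hn.eventually q0, hn.eventually q1] with
      s h1 h2 h3 h4 h5 h6
    exact ⟨⟨h1, h2⟩, h3, h4, h5, h6⟩
  have hev2 : ∃ s : ℝ, 0 < s ∧ ((0 < sg c.1 * f s 0 ∧ 0 < sg c.2 * f s 1) ∧
      (-b < s ∧ s < 1 - b) ∧ (-b < -s ∧ -s < 1 - b) ∧
      (0 < sg c.1 * f (-s) 0 ∧ 0 < sg c.2 * f (-s) 1)) := by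
    have h2 := (hev.filter_mono (nhdsWithin_le_nhds (s := Set.Ioi (0 : ℝ)))).and
      self_mem_nhdsWithin
    obtain ⟨s, hs⟩ := h2.exists
    exact ⟨s, hs.2, hs.1⟩
  obtain ⟨s, hs, ⟨h1, h2⟩, ⟨h3, h4⟩, ⟨h5, h6⟩, h7, h8⟩ := hev2
  have hne : ∀ s : ℝ, s ≠ 0 → f s ≠ cor c := by
    intro s hs h
    have : s • (y - x) = 0 := by
      have : cor c + s • (y - x) = cor c + 0 := by rw [add_zero]; exact h
      exact add_left_cancel this
    rcases smul_eq_zero.1 this with h | h
    · exact hs h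
    · exact hxy (sub_eq_zero.1 h).symm
  have m1 := (TT_lt (hf s h3.le h4.le) h1 h2).resolve_left (hne s hs.ne')
  have m2 := (TT_lt (hf (-s) h5.le h6.le) h7 h8).resolve_left (hne (-s) (neg_ne_zero.2 hs.ne'))
  have n1 : ∀ s, inner ℝ (g c) (f s) = s * inner ℝ (g c) (y - x) := by
    intro s
    show inner ℝ (g c) (cor c + s • (y - x)) = _
    rw [inner_add_right, inner_smul_right, inner_g_cor, zero_add]
  rw [n1] at m1 m2
  linarith

theorem SS_ne_TT : SS ≠ TT := by
  intro h
  have h1 : cS true ∈ TT := by rw [← h]; exact Or.inl (cS_mem _)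
  have k := aa_pos
  have k1 := s3_pos
  -- points of `TT` are on the axis or have a second coordinate different from zero
  have h2 : ∀ p ∈ TT, p 0 = 0 ∨ p 1 ≠ 0 := by
    rintro p ((hp | hp) | hp)
    · left
      obtain ⟨a, b, ha, hb, hab, rfl⟩ := hp
      simp [cT]
    · right
      obtain ⟨c, a, b, ha, hb, hab, rfl⟩ := Set.mem_iUnion.1 hp
      have : 0 < a * aa + b := by
        rcases eq_or_lt_of_le ha with rfl | ha
        · linarith
        · have := mul_pos ha k
          linarith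
      rcases c with ⟨_ | _, _ | _⟩ <;> simp [cT, cor, sg] <;> linarith
    · right
      obtain ⟨c, a, b, ha, hb, hab, rfl⟩ := Set.mem_iUnion.1 hp
      have : 0 ≤ b * (100⁻¹ * (√3 / 2)) := by positivity
      rcases c with ⟨_ | _, _ | _⟩ <;> simp [tip, w, cor, sg] <;> nlinarith
  rcases h2 _ h1 with h3 | h3
  · simp [cS, sg] at h3
    exact k.ne' h3
  · exact h3 (by simp [cS])

end

end Pool.Agent.T9h59.MDM
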