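import Pool.Agent.T9h59.MDM.Tree

/-!
The lower bound for trees through points near the corners of a square and near the tips of four
short tails.
-/

set_option autoImplicit false

namespace Pool.Agent.T9h59.MDM

open Finset

noncomputable section

abbrev P2 : Type := EuclideanSpace ℝ (Fin 2)

def sg (b : Bool) : ℝ := if b then 1 else -1

theorem sg_sq (b : Bool) : sg b * sg b = 1 := by cases b <;> simp [sg]

/-- corners of the square -/
def cor (c : Bool × Bool) : P2 := !₂[sg c.1, sg c.2]

/-- directions of the tails -/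
def w (c : Bool × Bool) : P2 := !₂[sg c.1 / 2, sg c.2 * (√3 / 2)]

/-- the other force at the corners -/
def g (c : Bool × Bool) : P2 := !₂[sg c.1 * ((√3 - 1) / 2), -(sg c.2 * ((√3 - 1) / 2))]

/-- tips of the tails -/
def tip (c : Bool × Bool) : P2 := cor c + (1 / 100 : ℝ) • w c

theorem inner_P2 (v q : P2) : inner ℝ v q = v 0 * q 0 + v 1 * q 1 := by
  rw [PiLp.inner_apply, Fin.sum_univ_two]
  simp [mul_comm]

theorem norm_le_one {v : P2} (h : v 0 ^ 2 + v 1 ^ 2 ≤ 1) : ‖v‖ ≤ 1 := by
  rw [EuclideanSpace.norm_eq, Fin.sum_univ_two]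
  simp only [Real.norm_eq_abs, sq_abs]
  rw [Real.sqrt_le_one]
  exact h

theorem s3 : √(3 : ℝ) * √(3 : ℝ) = 3 := Real.mul_self_sqrt (by norm_num)

theorem s3_pos : 0 < √(3 : ℝ) := Real.sqrt_pos.2 (by norm_num)

theorem s3_lt : √(3 : ℝ) < 1.733 := by
  rw [Real.sqrt_lt' (by norm_num)]; norm_num

theorem s3_gt : 1.732 < √(3 : ℝ) := by
  rw [Real.lt_sqrt (by norm_num)]; norm_num

theorem partial3 {E : Type*} [NormedAddCommGroup E] {f0 f1 f2 : E} (h0 : ‖f0‖ ≤ 1)
    (h1 : ‖f1‖ ≤ 1) (h2 : ‖f2‖ ≤ 1) (hs : f0 + f1 + f2 = 0) (P Q R : Prop) [Decidable P]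
    [Decidable Q] [Decidable R] :
    ‖(if P then f0 else 0) + (if Q then f1 else 0) + (if R then f2 else 0)‖ ≤ 1 := by
  have e0 : f0 + f1 = -f2 := by rw [← sub_eq_zero, sub_neg_eq_add]; exact hs
  have e1 : f0 + f2 = -f1 := by
    rw [← sub_eq_zero, sub_neg_eq_add, add_right_comm]; exact hs
  have e2 : f1 + f2 = -f0 := by
    rw [← sub_eq_zero, sub_neg_eq_add, add_comm, ← add_assoc]; exact hs
  split_ifs
  · rw [hs, norm_zero]; exact zero_le_one
  · rw [add_zero, e0, norm_neg]; exact h2
  · rw [add_zero, e1, norm_neg]; exact h1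
  · rw [add_zero, add_zero]; exact h0
  · rw [zero_add, e2, norm_neg]; exact h0
  · rw [zero_add, add_zero]; exact h1
  · rw [zero_add, zero_add]; exact h2
  · simp

/-- The cut bound with three terminals on one side and two on the other one. -/
theorem cut32 (T : PTree P2) {ι : Type*} [Fintype ι] [DecidableEq ι] (idx : ι → ℕ)
    (hidx : ∀ t, idx t ≤ T.m) (i : ℕ) {tq tp tr t1 t2 : ι} {fq fp fr e : P2}
    (hside : (T.Anc i (idx tq) ∧ T.Anc i (idx tp) ∧ T.Anc i (idx tr) ∧ ¬ T.Anc i (idx t1) ∧
        ¬ T.Anc i (idx t2)) ∨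
      (¬ T.Anc i (idx tq) ∧ ¬ T.Anc i (idx tp) ∧ ¬ T.Anc i (idx tr) ∧ T.Anc i (idx t1) ∧
        T.Anc i (idx t2)))
    (h0 : ‖fq‖ ≤ 1) (h1 : ‖fp‖ ≤ 1) (h2 : ‖fr‖ ≤ 1) (hs : fq + fp + fr = 0) (he : ‖e‖ ≤ 1) :
    inner ℝ fq (T.p (idx tq)) + inner ℝ fp (T.p (idx tp)) + inner ℝ fr (T.p (idx tr)) +
      (inner ℝ e (T.p (idx t1)) - inner ℝ e (T.p (idx t2))) ≤ T.len := by
  classical
  set a : ι → P2 := fun t => (if t = tq then fq else 0) + (if t = tp then fp else 0) +
    (if t = tr then fr else 0) with ha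
  set b : ι → P2 := fun t => (if t = t1 then e else 0) + (if t = t2 then -e else 0) +
    (if t = t2 then 0 else 0) with hb
  have sum3 : ∀ (D : ι → Prop) [DecidablePred D] (x y z : ι) (f0 f1 f2 : P2),
      (∑ t, if D t then ((if t = x then f0 else 0) + (if t = y then f1 else 0) +
        (if t = z then f2 else 0)) else 0) =
      (if D x then f0 else 0) + (if D y then f1 else 0) + (if D z then f2 else 0) := by
    intro D _ x y z f0 f1 f2
    have e1 : ∀ t, (if D t then ((if t = x then f0 else 0) + (if t = y then f1 else 0) +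
        (if t = z then f2 else 0)) else 0) =
        (if t = x then (if D x then f0 else 0) else 0) + (if t = y then (if D y then f1 else 0) else 0)
          + (if t = z then (if D z then f2 else 0) else 0) := by
      intro t
      by_cases hD : D t
      · rw [if_pos hD]
        congr 1
        · congr 1
          · by_cases hx : t = x
            · subst hx; simp [hD]
            · simp [hx]
          · by_cases hx : t = y
            · subst hx; simp [hD]
            · simp [hx]
        · by_cases hx : t = z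
          · subst hx; simp [hD]
          · simp [hx]
      · rw [if_neg hD]
        have k : ∀ (x : ι) (f : P2), (if t = x then (if D x then f else 0) else 0) = 0 := by
          intro x f
          by_cases hx : t = x
          · subst hx; simp [hD]
          · simp [hx]
        rw [k, k, k]; simp
    rw [sum_congr rfl fun t _ => e1 t, sum_add_distrib, sum_add_distrib]
    simp
  have suma : ∑ t, a t = 0 := by
    have := sum3 (fun _ => True) tq tp tr fq fp fr
    simp only [if_true] at this
    rw [ha, this, hs]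
  have sumb : ∑ t, b t = 0 := by
    have := sum3 (fun _ => True) t1 t2 t2 e (-e) 0
    simp only [if_true] at this
    rw [hb, this]; simp
  have pa : ∀ D : ι → Prop, ‖∑ t, if D t then a t else 0‖ ≤ 1 := by
    intro D
    rw [ha, sum3 D]
    exact partial3 h0 h1 h2 hs _ _ _
  have pb : ∀ D : ι → Prop, ‖∑ t, if D t then b t else 0‖ ≤ 1 := by
    intro D
    rw [hb, sum3 D]
    exact partial3 he (by rw [norm_neg]; exact he) (by simp) (by simp) _ _ _
  have single : ∀ (x : ι) (f : P2),
      ∑ t, inner ℝ (if t = x then f else 0) (T.p (idx t)) = inner ℝ f (T.p (idx x)) := by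
    intro x f
    rw [Finset.sum_eq_single x]
    · simp
    · intro t _ h
      rw [if_neg h, inner_zero_left]
    · intro h
      exact absurd (mem_univ x) h
  have ia : ∑ t, inner ℝ (a t) (T.p (idx t)) =
      inner ℝ fq (T.p (idx tq)) + inner ℝ fp (T.p (idx tp)) + inner ℝ fr (T.p (idx tr)) := by
    simp only [ha, inner_add_left, sum_add_distrib, single]
  have ib : ∑ t, inner ℝ (b t) (T.p (idx t)) =
      inner ℝ e (T.p (idx t1)) - inner ℝ e (T.p (idx t2)) := by
    simp only [hb, inner_add_left, sum_add_distrib, single, ite_self, inner_zero_left,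
      sum_const_zero, add_zero, inner_neg_left]
    ring
  rcases hside with ⟨q1, q2, q3, q4, q5⟩ | ⟨q1, q2, q3, q4, q5⟩
  · have := T.cut idx hidx i a b ?_ ?_ suma sumb pa pb
    · rwa [ia, ib] at this
    · intro t ht
      have n1 : t ≠ tq := fun h => ht (h ▸ q1)
      have n2 : t ≠ tp := fun h => ht (h ▸ q2)
      have n3 : t ≠ tr := fun h => ht (h ▸ q3)
      simp [ha, n1, n2, n3]
    · intro t ht
      have n1 : t ≠ t1 := fun h => q4 (h ▸ ht)
      have n2 : t ≠ t2 := fun h => q5 (h ▸ ht)
      simp [hb, n1, n2]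
  · have := T.cut idx hidx i b a ?_ ?_ sumb suma pb pa
    · rw [ia, ib] at this
      linarith
    · intro t ht
      have n1 : t ≠ t1 := fun h => ht (h ▸ q4)
      have n2 : t ≠ t2 := fun h => ht (h ▸ q5)
      simp [hb, n1, n2]
    · intro t ht
      have n1 : t ≠ tq := fun h => q1 (h ▸ ht)
      have n2 : t ≠ tp := fun h => q2 (h ▸ ht)
      have n3 : t ≠ tr := fun h => q3 (h ▸ ht)
      simp [ha, n1, n2, n3]

theorem inner_near {f x c : P2} (hf : ‖f‖ ≤ 1) {δ : ℝ} (h : ‖x - c‖ ≤ δ) :
    inner ℝ f c - δ ≤ inner ℝ f x := by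
  have h1 : inner ℝ f x = inner ℝ f c + inner ℝ f (x - c) := by rw [inner_sub_right]; ring
  have h2 : |inner ℝ f (x - c)| ≤ ‖f‖ * ‖x - c‖ := abs_real_inner_le_norm _ _
  have h3 : ‖f‖ * ‖x - c‖ ≤ 1 * δ := mul_le_mul hf h (norm_nonneg _) zero_le_one
  have h4 := neg_abs_le (inner ℝ f (x - c))
  linarith

/-- The classification of the splits of the eight terminals. -/
theorem classify : ∀ x z : Bool × Bool → Bool,
    (∃ c0 c1 c2 : Bool × Bool, c1 ≠ c2 ∧ (∀ c, c ≠ c0 → (x c || z c) = true) ∧
      (x c1 && z c1) = false ∧ (x c2 && z c2) = false) ∨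
    (∃ c0 c1 c2 : Bool × Bool, c1 ≠ c2 ∧ (∀ c, c ≠ c0 → (x c && z c) = false) ∧
      (x c1 || z c1) = true ∧ (x c2 || z c2) = true) ∨
    (∀ c, x c = z c) ∨
    (∃ c, ∀ c', c' ≠ c → x c' = false ∧ z c' = false) ∨
    (∃ c, ∀ c', c' ≠ c → x c' = true ∧ z c' = true) := by
  set_option synthInstance.maxSize 1000 in
  set_option synthInstance.maxHeartbeats 0 in
  set_option maxRecDepth 100000 in
  decide

/-- The forces at the eight terminals for the first tree. -/
def vS (t : (Bool × Bool) × Bool) : P2 := if t.2 then w t.1 else 0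

/-- The forces at the eight terminals for the second tree. -/
def vT (t : (Bool × Bool) × Bool) : P2 := if t.2 then w t.1 else g t.1

theorem norm_w (c : Bool × Bool) : ‖w c‖ ≤ 1 := by
  apply norm_le_one
  have := s3
  rcases c with ⟨_ | _, _ | _⟩ <;> simp [w, sg] <;> nlinarith

theorem norm_g (c : Bool × Bool) : ‖g c‖ ≤ 1 := by
  apply norm_le_one
  have := s3
  have := s3_gt
  have := s3_lt
  rcases c with ⟨_ | _, _ | _⟩ <;> simp [g, sg] <;> nlinarith

theorem norm_wg (c : Bool × Bool) : ‖w c + g c‖ ≤ 1 := by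
  apply norm_le_one
  have := s3
  rcases c with ⟨_ | _, _ | _⟩ <;> simp [w, g, sg] <;> nlinarith

theorem sum_corners {M : Type*} [AddCommMonoid M] (f : Bool × Bool → M) :
    ∑ c, f c = f (true, true) + f (true, false) + (f (false, true) + f (false, false)) := by
  rw [Fintype.sum_prod_type, Fintype.sum_bool, Fintype.sum_bool, Fintype.sum_bool]

theorem sum_terminals {M : Type*} [AddCommMonoid M] (f : (Bool × Bool) × Bool → M) :
    ∑ t, f t = ∑ c, (f (c, true) + f (c, false)) := by
  rw [Fintype.sum_prod_type]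
  simp only [Fintype.sum_bool]

theorem sum_w : ∑ c, w c = 0 := by
  rw [sum_corners]
  ext k
  fin_cases k <;> simp [w, sg] <;> ring

theorem sum_g : ∑ c, g c = 0 := by
  rw [sum_corners]
  ext k
  fin_cases k <;> simp [g, sg] <;> ring


end

end Pool.Agent.T9h59.MDM
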