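import Pool.Agent.T9h59.MDM.Lower

/-!
The lower bound for trees, continued.
-/

set_option autoImplicit false

namespace Pool.Agent.T9h59.MDM

open Finset

noncomputable section

/-- the sum over the corners in `Z` of the first forces -/
theorem flow_S (Z : Bool × Bool → Prop) [DecidablePred Z]
    (h1 : ¬ (Z (true, true) ∧ Z (false, true) ∧ ¬ Z (true, false) ∧ ¬ Z (false, false)))
    (h2 : ¬ (¬ Z (true, true) ∧ ¬ Z (false, true) ∧ Z (true, false) ∧ Z (false, false))) :
    ‖∑ c, if Z c then w c else 0‖ ≤ 1 := by
  apply norm_le_one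
  rw [sum_corners]
  have := s3
  by_cases a1 : Z (true, true) <;> by_cases a2 : Z (false, true) <;> by_cases a3 : Z (true, false) <;>
    by_cases a4 : Z (false, false) <;> simp [a1, a2, a3, a4] at h1 h2 <;>
    simp [a1, a2, a3, a4, w, sg] <;> nlinarith

/-- the sum over the corners in `Z` of the second forces -/
theorem flow_T (Z : Bool × Bool → Prop) [DecidablePred Z]
    (h1 : ¬ (Z (true, true) ∧ ¬ Z (false, true) ∧ Z (true, false) ∧ ¬ Z (false, false)))
    (h2 : ¬ (¬ Z (true, true) ∧ Z (false, true) ∧ ¬ Z (true, false) ∧ Z (false, false))) :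
    ‖∑ c, if Z c then w c + g c else 0‖ ≤ 1 := by
  apply norm_le_one
  rw [sum_corners]
  have := s3
  by_cases a1 : Z (true, true) <;> by_cases a2 : Z (false, true) <;> by_cases a3 : Z (true, false) <;>
    by_cases a4 : Z (false, false) <;> simp [a1, a2, a3, a4] at h1 h2 <;>
    simp [a1, a2, a3, a4, w, g, sg] <;> nlinarith

theorem inner_w_cor (c : Bool × Bool) : inner ℝ (w c) (cor c) = (1 + √3) / 2 := by
  rw [inner_P2]
  rcases c with ⟨_ | _, _ | _⟩ <;> simp [w, cor, sg] <;> ring

theorem inner_w_w (c : Bool × Bool) : inner ℝ (w c) (w c) = (1 : ℝ) := by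
  rw [inner_P2]
  have := s3
  rcases c with ⟨_ | _, _ | _⟩ <;> simp [w, sg] <;> nlinarith

theorem inner_w_tip (c : Bool × Bool) : inner ℝ (w c) (tip c) = (1 + √3) / 2 + 1 / 100 := by
  rw [tip, inner_add_right, inner_smul_right, inner_w_cor, inner_w_w]
  ring

theorem inner_g_cor (c : Bool × Bool) : inner ℝ (g c) (cor c) = 0 := by
  rw [inner_P2]
  rcases c with ⟨_ | _, _ | _⟩ <;> simp [g, cor, sg]

/-- The lower bound for trees. -/
theorem lower_tree (T : PTree P2) (idx : (Bool × Bool) × Bool → ℕ) (hidx : ∀ t, idx t ≤ T.m)
    (hx : ∀ c, 0 ≤ inner ℝ (g c) (T.p (idx (c, false)) - cor c))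
    (hz : ∀ c, 0 ≤ inner ℝ (w c) (T.p (idx (c, true)) - tip c))
    (hd : ∀ t, ‖T.p (idx t) - cor t.1‖ ≤ 3 / 100) :
    2 + 2 * √3 + 4 / 100 ≤ T.len := by
  classical
  have hz' : ∀ c, (1 + √3) / 2 + 1 / 100 ≤ inner ℝ (w c) (T.p (idx (c, true))) := by
    intro c
    have h1 := hz c
    rw [inner_sub_right, inner_w_tip] at h1
    linarith
  have hx' : ∀ c, 0 ≤ inner ℝ (g c) (T.p (idx (c, false))) := by
    intro c
    have h1 := hx c
    rw [inner_sub_right, inner_g_cor] at h1
    linarith
  by_cases hcase : ∃ i, (T.Anc i (idx ((true, true), true)) ∧ T.Anc i (idx ((false, true), true)) ∧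
      ¬ T.Anc i (idx ((true, false), true)) ∧ ¬ T.Anc i (idx ((false, false), true))) ∨
      (¬ T.Anc i (idx ((true, true), true)) ∧ ¬ T.Anc i (idx ((false, true), true)) ∧
      T.Anc i (idx ((true, false), true)) ∧ T.Anc i (idx ((false, false), true)))
  swap
  · -- the first certificate
    have key := T.cert idx hidx vS ?_ ?_
    · rw [sum_terminals] at key
      simp only [vS, if_true, Bool.false_eq_true, if_false, inner_zero_left, add_zero] at key
      rw [sum_corners] at key
      have a1 := hz' (true, true)
      have a2 := hz' (true, false)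
      have a3 := hz' (false, true)
      have a4 := hz' (false, false)
      linarith
    · rw [sum_terminals]
      simp only [vS, if_true, Bool.false_eq_true, if_false, add_zero]
      exact sum_w
    · intro i
      rw [sum_terminals]
      simp only [vS, if_true, Bool.false_eq_true, if_false, ite_self, add_zero]
      apply flow_S (fun c => T.Anc i (idx (c, true)))
      · intro h; exact hcase ⟨i, Or.inl h⟩
      · intro h; exact hcase ⟨i, Or.inr h⟩
  · obtain ⟨i0, hi0⟩ := hcase
    by_cases hflow : ∀ i, ‖∑ t, if T.Anc i (idx t) then vT t else 0‖ ≤ 1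
    · -- the second certificate
      have key := T.cert idx hidx vT ?_ hflow
      · rw [sum_terminals] at key
        simp only [vT, if_true, Bool.false_eq_true, if_false] at key
        rw [sum_corners] at key
        have a1 := hz' (true, true)
        have a2 := hz' (true, false)
        have a3 := hz' (false, true)
        have a4 := hz' (false, false)
        have b1 := hx' (true, true)
        have b2 := hx' (true, false)
        have b3 := hx' (false, true)
        have b4 := hx' (false, false)
        linarith
      · rw [sum_terminals]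
        simp only [vT, if_true, Bool.false_eq_true, if_false]
        rw [sum_add_distrib, sum_w, sum_g, add_zero]
    · push Not at hflow
      obtain ⟨i, hi⟩ := hflow
      rw [sum_terminals] at hi
      simp only [vT, if_true, Bool.false_eq_true, if_false] at hi
      -- the bound from the cut
      have hcut : ∀ (c0 c1 c2 : Bool × Bool), c1 ≠ c2 → ∀ b : Bool × Bool → Bool, ∀ b1 b2 : Bool,
          ((∀ c, c ≠ c0 → T.Anc i (idx (c, b c))) ∧ ¬ T.Anc i (idx (c1, b1)) ∧
            ¬ T.Anc i (idx (c2, b2)) ∨
          (∀ c, c ≠ c0 → ¬ T.Anc i (idx (c, b c))) ∧ T.Anc i (idx (c1, b1)) ∧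
            T.Anc i (idx (c2, b2))) → 2 + 2 * √3 + 4 / 100 ≤ T.len := by
        intro c0 c1 c2 h12 b b1 b2 hb
        obtain ⟨s, t⟩ := c0
        set fp : P2 := !₂[sg s, 0] with hfp
        set fr : P2 := !₂[-(sg s / 2), sg t * (√3 / 2)] with hfr
        set fq : P2 := !₂[-(sg s / 2), -(sg t * (√3 / 2))] with hfq
        have n1 : ‖fp‖ ≤ 1 := by
          apply norm_le_one
          cases s <;> simp [hfp, sg]
        have n2 : ‖fr‖ ≤ 1 := by
          apply norm_le_one
          have := s3
          cases s <;> cases t <;> simp [hfr, sg] <;> nlinarith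
        have n3 : ‖fq‖ ≤ 1 := by
          apply norm_le_one
          have := s3
          cases s <;> cases t <;> simp [hfq, sg] <;> nlinarith
        have hsum : fq + fp + fr = 0 := by
          ext k
          fin_cases k <;> simp [hfq, hfp, hfr] <;> ring
        obtain ⟨e, he, hee⟩ : ∃ e : P2, ‖e‖ ≤ 1 ∧ inner ℝ e (cor c1) - inner ℝ e (cor c2) = 2 := by
          obtain ⟨x1, y1⟩ := c1
          obtain ⟨x2, y2⟩ := c2
          by_cases hxx : x1 = x2
          · have hyy : y1 ≠ y2 := fun h => h12 (by rw [hxx, h])
            refine ⟨!₂[0, sg y1], ?_, ?_⟩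
            · apply norm_le_one
              cases y1 <;> simp [sg]
            · rw [inner_P2, inner_P2]
              cases y1 <;> cases y2 <;> simp [cor, sg] at hyy ⊢ <;> norm_num
          · refine ⟨!₂[sg x1, 0], ?_, ?_⟩
            · apply norm_le_one
              cases x1 <;> simp [sg]
            · rw [inner_P2, inner_P2]
              cases x1 <;> cases x2 <;> simp [cor, sg] at hxx ⊢ <;> norm_num
        have hq : ((!s, !t) : Bool × Bool) ≠ (s, t) := by cases s <;> cases t <;> decide
        have hp : ((s, !t) : Bool × Bool) ≠ (s, t) := by cases s <;> cases t <;> decide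
        have hr : ((!s, t) : Bool × Bool) ≠ (s, t) := by cases s <;> cases t <;> decide
        have key := cut32 T idx hidx i (tq := ((!s, !t), b (!s, !t))) (tp := ((s, !t), b (s, !t)))
          (tr := ((!s, t), b (!s, t))) (t1 := (c1, b1)) (t2 := (c2, b2)) (fq := fq) (fp := fp)
          (fr := fr) (e := e) ?_ n3 n1 n2 hsum he
        · have k1 := inner_near n3 (hd ((!s, !t), b (!s, !t)))
          have k2 := inner_near n1 (hd ((s, !t), b (s, !t)))
          have k3 := inner_near n2 (hd ((!s, t), b (!s, t)))
          have k4 := inner_near he (hd (c1, b1))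
          have k5 := inner_near (f := -e) (by rw [norm_neg]; exact he) (hd (c2, b2))
          simp only [inner_neg_left] at k5
          have m : inner ℝ fq (cor (!s, !t)) + inner ℝ fp (cor (s, !t)) + inner ℝ fr (cor (!s, t)) =
              2 + √3 := by
            rw [inner_P2, inner_P2, inner_P2]
            cases s <;> cases t <;> simp [hfq, hfp, hfr, cor, sg] <;> ring
          have := s3_lt
          dsimp only at k1 k2 k3 k4 k5
          linarith
        · rcases hb with ⟨h1, h2, h3⟩ | ⟨h1, h2, h3⟩
          · exact Or.inl ⟨h1 _ hq, h1 _ hp, h1 _ hr, h2, h3⟩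
          · exact Or.inr ⟨h1 _ hq, h1 _ hp, h1 _ hr, h2, h3⟩
      -- classification
      rcases classify (fun c => decide (T.Anc i (idx (c, false))))
        (fun c => decide (T.Anc i (idx (c, true)))) with h | h | h | h | h
      · obtain ⟨c0, c1, c2, h12, h1, h2, h3⟩ := h
        simp only [Bool.or_eq_true, decide_eq_true_eq, Bool.and_eq_false_iff, decide_eq_false_iff_not] at h1 h2 h3
        have hb : ∀ c, c ≠ c0 → ∃ b, T.Anc i (idx (c, b)) := by
          intro c hc
          rcases h1 c hc with h | h
          · exact ⟨false, h⟩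
          · exact ⟨true, h⟩
        choose! b hb using hb
        obtain ⟨b1, hb1⟩ : ∃ b, ¬ T.Anc i (idx (c1, b)) := by
          rcases h2 with h | h
          · exact ⟨false, h⟩
          · exact ⟨true, h⟩
        obtain ⟨b2, hb2⟩ : ∃ b, ¬ T.Anc i (idx (c2, b)) := by
          rcases h3 with h | h
          · exact ⟨false, h⟩
          · exact ⟨true, h⟩
        exact hcut c0 c1 c2 h12 b b1 b2 (Or.inl ⟨hb, hb1, hb2⟩)
      · obtain ⟨c0, c1, c2, h12, h1, h2, h3⟩ := h
        simp only [Bool.or_eq_true, decide_eq_true_eq, Bool.and_eq_false_iff, decide_eq_false_iff_not] at h1 h2 h3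
        have hb : ∀ c, c ≠ c0 → ∃ b, ¬ T.Anc i (idx (c, b)) := by
          intro c hc
          rcases h1 c hc with h | h
          · exact ⟨false, h⟩
          · exact ⟨true, h⟩
        choose! b hb using hb
        obtain ⟨b1, hb1⟩ : ∃ b, T.Anc i (idx (c1, b)) := by
          rcases h2 with h | h
          · exact ⟨false, h⟩
          · exact ⟨true, h⟩
        obtain ⟨b2, hb2⟩ : ∃ b, T.Anc i (idx (c2, b)) := by
          rcases h3 with h | h
          · exact ⟨false, h⟩
          · exact ⟨true, h⟩
        exact hcut c0 c1 c2 h12 b b1 b2 (Or.inr ⟨hb, hb1, hb2⟩)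
      · exfalso
        simp only [decide_eq_decide] at h
        have e1 : (∑ c, ((if T.Anc i (idx (c, true)) then w c else 0) +
            if T.Anc i (idx (c, false)) then g c else 0)) =
            ∑ c, if T.Anc i (idx (c, true)) then w c + g c else 0 := by
          apply sum_congr rfl
          intro c _
          by_cases hc : T.Anc i (idx (c, true))
          · rw [if_pos hc, if_pos hc, if_pos ((h c).2 hc)]
          · rw [if_neg hc, if_neg hc, if_neg fun h' => hc ((h c).1 h'), add_zero]
        rw [e1] at hi
        refine absurd (flow_T (fun c => T.Anc i (idx (c, true))) ?_ ?_) (not_le.2 hi)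
        · rintro ⟨a1, a2, a3, a4⟩
          rcases T.laminar i i0 with hl | hl | hl
          · rcases hi0 with ⟨c1, c2, c3, c4⟩ | ⟨c1, c2, c3, c4⟩
            · exact hl _ ⟨a1, c1⟩
            · exact hl _ ⟨a3, c3⟩
          · rcases hi0 with ⟨c1, c2, c3, c4⟩ | ⟨c1, c2, c3, c4⟩
            · exact c3 (hl _ a3)
            · exact c1 (hl _ a1)
          · rcases hi0 with ⟨c1, c2, c3, c4⟩ | ⟨c1, c2, c3, c4⟩
            · exact a2 (hl _ c2)
            · exact a4 (hl _ c4)
        · rintro ⟨a1, a2, a3, a4⟩
          rcases T.laminar i i0 with hl | hl | hl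
          · rcases hi0 with ⟨c1, c2, c3, c4⟩ | ⟨c1, c2, c3, c4⟩
            · exact hl _ ⟨a2, c2⟩
            · exact hl _ ⟨a4, c4⟩
          · rcases hi0 with ⟨c1, c2, c3, c4⟩ | ⟨c1, c2, c3, c4⟩
            · exact c4 (hl _ a4)
            · exact c2 (hl _ a2)
          · rcases hi0 with ⟨c1, c2, c3, c4⟩ | ⟨c1, c2, c3, c4⟩
            · exact a1 (hl _ c1)
            · exact a3 (hl _ c3)
      · exfalso
        obtain ⟨c, hc⟩ := h
        simp only [decide_eq_false_iff_not] at hc
        have e1 : (∑ c, ((if T.Anc i (idx (c, true)) then w c else 0) +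
            if T.Anc i (idx (c, false)) then g c else 0)) =
            ((if T.Anc i (idx (c, true)) then w c else 0) +
            if T.Anc i (idx (c, false)) then g c else 0) := by
          apply sum_eq_single c
          · intro c' _ hne
            rw [if_neg (hc c' hne).1, if_neg (hc c' hne).2, add_zero]
          · intro h
            exact absurd (mem_univ c) h
        rw [e1] at hi
        apply absurd _ (not_le.2 hi)
        split_ifs
        · exact norm_wg c
        · rw [add_zero]; exact norm_w c
        · rw [zero_add]; exact norm_g c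
        · simp
      · exfalso
        obtain ⟨c, hc⟩ := h
        simp only [decide_eq_true_eq] at hc
        have e0 : ∑ c, (w c + g c) = 0 := by rw [sum_add_distrib, sum_w, sum_g, add_zero]
        have e1 : (∑ c, ((if T.Anc i (idx (c, true)) then w c else 0) +
            if T.Anc i (idx (c, false)) then g c else 0)) =
            ((if T.Anc i (idx (c, true)) then w c else 0) +
            if T.Anc i (idx (c, false)) then g c else 0) - (w c + g c) := by
          have h5 : (∑ c', (((if T.Anc i (idx (c', true)) then w c' else 0) +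
              if T.Anc i (idx (c', false)) then g c' else 0) - (w c' + g c'))) =
              ((if T.Anc i (idx (c, true)) then w c else 0) +
              if T.Anc i (idx (c, false)) then g c else 0) - (w c + g c) := by
            apply sum_eq_single c
            · intro c' _ hne
              rw [if_pos (hc c' hne).1, if_pos (hc c' hne).2, sub_self]
            · intro h
              exact absurd (mem_univ c) h
          rw [sum_sub_distrib, e0, sub_zero] at h5
          exact h5
        rw [e1] at hi
        apply absurd _ (not_le.2 hi)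
        split_ifs
        · simp
        · rw [add_zero, sub_add_cancel_left, norm_neg]; exact norm_g c
        · rw [zero_add, sub_add_cancel_right, norm_neg]; exact norm_w c
        · rw [add_zero, zero_sub, norm_neg]; exact norm_wg c

end

end Pool.Agent.T9h59.MDM
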