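import Pool.Agent.T9h59.MDM.Lower2

/-!
The eight terminals, the eight points of `M`, and the lower bound for compact connected sets.
-/

set_option autoImplicit false

namespace Pool.Agent.T9h59.MDM

open Finset MeasureTheory
open scoped ENNReal

noncomputable section

/-- the unit vector in the direction of `g c` -/
def gh (c : Bool × Bool) : P2 := !₂[sg c.1 * (√2 / 2), -(sg c.2 * (√2 / 2))]

theorem s2 : √(2 : ℝ) * √(2 : ℝ) = 2 := Real.mul_self_sqrt (by norm_num)

theorem s2_pos : 0 < √(2 : ℝ) := Real.sqrt_pos.2 (by norm_num)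

theorem s2_lt : √(2 : ℝ) < 1.5 := by
  rw [Real.sqrt_lt' (by norm_num)]; norm_num

/-- the direction in which the point of `M` belonging to a terminal lies -/
def dir (t : (Bool × Bool) × Bool) : P2 := if t.2 then w t.1 else gh t.1

/-- the terminals -/
def ap (t : (Bool × Bool) × Bool) : P2 := if t.2 then tip t.1 else cor t.1

/-- the points of `M` -/
def mp (t : (Bool × Bool) × Bool) : P2 := ap t + (1 / 100 : ℝ) • dir t

theorem norm_gh (c : Bool × Bool) : ‖gh c‖ ≤ 1 := by
  apply norm_le_one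
  have := s2
  rcases c with ⟨_ | _, _ | _⟩ <;> simp [gh, sg] <;> nlinarith

theorem inner_gh_gh (c : Bool × Bool) : inner ℝ (gh c) (gh c) = (1 : ℝ) := by
  rw [inner_P2]
  have := s2
  rcases c with ⟨_ | _, _ | _⟩ <;> simp [gh, sg] <;> nlinarith

theorem g_eq (c : Bool × Bool) : g c = ((√3 - 1) / 2 * √2) • gh c := by
  have := s2
  ext k
  fin_cases k
  · simp only [g, gh, Fin.zero_eta, PiLp.smul_apply, smul_eq_mul]
    simp
    linear_combination (-(sg c.1 * (√3 - 1) / 4)) * this
  · simp only [g, gh, Fin.mk_one, PiLp.smul_apply, smul_eq_mul]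
    simp
    linear_combination (-(sg c.2 * (√3 - 1) / 4)) * this

theorem norm_dir (t : (Bool × Bool) × Bool) : ‖dir t‖ ≤ 1 := by
  rcases t with ⟨c, _ | _⟩
  · exact norm_gh c
  · exact norm_w c

theorem inner_dir (t : (Bool × Bool) × Bool) : inner ℝ (dir t) (dir t) = (1 : ℝ) := by
  rcases t with ⟨c, _ | _⟩
  · exact inner_gh_gh c
  · exact inner_w_w c

theorem ball_dir {u x p : P2} (hu : ‖u‖ ≤ 1) (huu : inner ℝ u u = (1 : ℝ))
    (h : dist (p + (1 / 100 : ℝ) • u) x ≤ 1 / 100) :
    0 ≤ inner ℝ u (x - p) ∧ ‖x - p‖ ≤ 2 / 100 := by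
  rw [dist_comm, dist_eq_norm] at h
  have e : x - p = (x - (p + (1 / 100 : ℝ) • u)) + (1 / 100 : ℝ) • u := by abel
  constructor
  · rw [e, inner_add_right, inner_smul_right, huu]
    have h2 : |inner ℝ u (x - (p + (1 / 100 : ℝ) • u))| ≤ ‖u‖ * ‖x - (p + (1 / 100 : ℝ) • u)‖ :=
      abs_real_inner_le_norm _ _
    have h3 : ‖u‖ * ‖x - (p + (1 / 100 : ℝ) • u)‖ ≤ 1 * (1 / 100) :=
      mul_le_mul hu h (norm_nonneg _) zero_le_one
    have h4 := neg_abs_le (inner ℝ u (x - (p + (1 / 100 : ℝ) • u)))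
    linarith
  · rw [e]
    refine (norm_add_le _ _).trans ?_
    rw [norm_smul, Real.norm_eq_abs, abs_of_pos (by norm_num)]
    nlinarith [norm_nonneg u]

theorem ap_near (t : (Bool × Bool) × Bool) : ‖ap t - cor t.1‖ ≤ 1 / 100 := by
  rcases t with ⟨c, _ | _⟩
  · simp [ap]
  · simp only [ap, if_true, tip, add_sub_cancel_left]
    rw [norm_smul, Real.norm_eq_abs, abs_of_pos (by norm_num)]
    have := norm_w c
    linarith

/-- The lower bound for compact connected sets. -/
theorem lower_set {W : Set P2} (hWc : IsCompact W) (hW : IsConnected W)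
    (hM : ∀ t, Metric.infDist (mp t) W ≤ 1 / 100) :
    ENNReal.ofReal (2 + 2 * √3 + 4 / 100) ≤ μH[1] W := by
  by_cases hfin : μH[1] W = ⊤
  · rw [hfin]; exact le_top
  have hx : ∀ t, ∃ x ∈ W, dist (mp t) x ≤ 1 / 100 := by
    intro t
    obtain ⟨x, hxW, hx⟩ := hWc.exists_infDist_eq_dist hW.nonempty (mp t)
    exact ⟨x, hxW, hx ▸ hM t⟩
  choose x hxW hx using hx
  let e : (Bool × Bool) × Bool ≃ Fin 8 := Fintype.equivFinOfCardEq (by simp)
  obtain ⟨x0, hx0⟩ := hW.nonempty
  obtain ⟨y, hy, hyt, hlen⟩ := Pool.Agent.R154.Steiner.exists_net hWc hW.isPreconnected hfin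
    (fun i => x (e.symm i)) (fun i => hxW _) x0 hx0
  obtain ⟨T, hT, hTlen⟩ := exists_tree y hy
  have hidx : ∀ t, ∃ j ≤ T.m, T.p j = x t := by
    intro t
    obtain ⟨σ, hσ⟩ := hyt (e t)
    obtain ⟨j, hj, hj'⟩ := hT σ
    refine ⟨j, hj, ?_⟩
    rw [hj', hσ, Equiv.symm_apply_apply]
  choose idx hidx hidx' using hidx
  have key : 2 + 2 * √3 + 4 / 100 ≤ T.len := by
    apply lower_tree T idx hidx
    · intro c
      rw [hidx']
      have h := (ball_dir (norm_dir (c, false)) (inner_dir (c, false)) (hx (c, false))).1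
      simp only [dir, ap, Bool.false_eq_true, if_false] at h
      rw [g_eq, real_inner_smul_left]
      refine mul_nonneg (mul_nonneg ?_ s2_pos.le) h
      have := s3_gt
      linarith
    · intro c
      rw [hidx']
      have h := (ball_dir (norm_dir (c, true)) (inner_dir (c, true)) (hx (c, true))).1
      simpa only [dir, ap, if_true] using h
    · intro t
      rw [hidx']
      have h := (ball_dir (norm_dir t) (inner_dir t) (hx t)).2
      have h1 := ap_near t
      have h2 : x t - cor t.1 = (x t - ap t) + (ap t - cor t.1) := by abel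
      rw [h2]
      exact (norm_add_le _ _).trans (by linarith)
  have h2 : 2 + 2 * √3 + 4 / 100 ≤ (μH[1] W).toReal := key.trans (hTlen.trans hlen)
  exact ENNReal.ofReal_le_of_le_toReal h2

theorem mp_near (t : (Bool × Bool) × Bool) : dist (mp t) (ap t) ≤ 1 / 100 := by
  rw [dist_eq_norm, mp, add_sub_cancel_left, norm_smul, Real.norm_eq_abs,
    abs_of_pos (by norm_num)]
  have := norm_dir t
  linarith

theorem mp_infDist {W : Set P2} (h : ∀ t, ap t ∈ W) (t : (Bool × Bool) × Bool) :
    Metric.infDist (mp t) W ≤ 1 / 100 :=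
  (Metric.infDist_le_dist_of_mem (h t)).trans (mp_near t)

/-- injectivity of a parametrisation with the signs of the corners -/
theorem inj_aux (f : (Bool × Bool) × Bool → P2) (α β : Bool → ℝ)
    (h0 : ∀ t, f t 0 = sg t.1.1 * α t.2) (h1 : ∀ t, f t 1 = sg t.1.2 * β t.2)
    (ha : ∀ b, 0 < α b) (hb : ∀ b, 0 < β b) (hne : β true ≠ β false) : Function.Injective f := by
  rintro ⟨⟨s, t⟩, b⟩ ⟨⟨s', t'⟩, b'⟩ h
  have e0 : sg s * α b = sg s' * α b' := by rw [← h0 ((s, t), b), h, h0]
  have e1 : sg t * β b = sg t' * β b' := by rw [← h1 ((s, t), b), h, h1]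
  have a1 := ha true
  have a2 := ha false
  have b1 := hb true
  have b2 := hb false
  have hs : s = s' := by
    cases s <;> cases s' <;> cases b <;> cases b' <;> simp [sg] at e0 ⊢ <;> linarith
  have ht : t = t' := by
    cases t <;> cases t' <;> cases b <;> cases b' <;> simp [sg] at e1 ⊢ <;> linarith
  subst hs ht
  have hbb : b = b' := by
    cases t <;> cases b <;> cases b' <;> simp [sg] at e1 ⊢
    · exact hne e1.symm
    · exact hne e1
    · exact hne e1.symm
    · exact hne e1
  rw [hbb]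

theorem ap_inj : Function.Injective ap := by
  have := s3_pos
  refine inj_aux ap (fun b => if b then 1 + 1 / 200 else 1)
    (fun b => if b then 1 + √3 / 200 else 1) ?_ ?_ ?_ ?_ ?_
  · rintro ⟨⟨s, t⟩, _ | _⟩
    · simp [ap, cor]
    · simp [ap, tip, cor, w]; ring
  · rintro ⟨⟨s, t⟩, _ | _⟩
    · simp [ap, cor]
    · simp [ap, tip, cor, w]; ring
  · rintro (_ | _) <;> norm_num
  · rintro (_ | _) <;> simp <;> positivity
  · simp

theorem mp_inj : Function.Injective mp := by
  have := s3_pos
  have := s2_pos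
  have := s2_lt
  refine inj_aux mp (fun b => if b then 1 + 1 / 100 else 1 + √2 / 200)
    (fun b => if b then 1 + √3 / 100 else 1 - √2 / 200) ?_ ?_ ?_ ?_ ?_
  · rintro ⟨⟨s, t⟩, _ | _⟩
    · simp [mp, ap, dir, cor, gh]; ring
    · simp [mp, ap, dir, tip, cor, w]; ring
  · rintro ⟨⟨s, t⟩, _ | _⟩
    · simp [mp, ap, dir, cor, gh]; ring
    · simp [mp, ap, dir, tip, cor, w]; ring
  · rintro (_ | _) <;> simp <;> positivity
  · rintro (_ | _)
    · simp; linarith
    · simp; positivity
  · simp only [if_true, Bool.false_eq_true, if_false, ne_eq]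
    intro h
    linarith

/-! ### The two trees -/

/-- half the distance of the two branching points -/
def aa : ℝ := 1 - √3 / 3

theorem aa_pos : 0 < aa := by
  have := s3_lt
  unfold aa; linarith

theorem aa_lt : aa < 1 / 2 := by
  have := s3_gt
  unfold aa; linarith

def cS (s : Bool) : P2 := !₂[sg s * aa, 0]

def cT (t : Bool) : P2 := !₂[0, sg t * aa]

/-- the first tree -/
def SS : Set P2 := segment ℝ (cS false) (cS true) ∪ ⋃ c : Bool × Bool, segment ℝ (cS c.1) (tip c)

/-- the second tree -/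
def TT : Set P2 := (segment ℝ (cT false) (cT true) ∪
  ⋃ c : Bool × Bool, segment ℝ (cT c.2) (cor c)) ∪ ⋃ c : Bool × Bool, segment ℝ (cor c) (tip c)

theorem cor_sub_cS (c : Bool × Bool) : cor c - cS c.1 = (2 * √3 / 3) • w c := by
  have := s3
  ext k
  fin_cases k
  · simp [cor, cS, w, aa]; ring
  · simp [cor, cS, w]
    linear_combination (- sg c.2 / 3) * this

theorem tip_sub_cS (c : Bool × Bool) : tip c - cS c.1 = (2 * √3 / 3 + 1 / 100) • w c := by
  rw [tip, add_sub_right_comm, cor_sub_cS, add_smul]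

theorem cor_sub_cT (c : Bool × Bool) : cor c - cT c.2 = (2 * √3 / 3) • (w c + g c) := by
  have := s3
  ext k
  fin_cases k
  · simp [cor, cT, w, g]
    linear_combination (- sg c.1 / 3) * this
  · simp [cor, cT, w, g, aa]; ring

theorem dist_cS : dist (cS false) (cS true) ≤ 2 - 2 * √3 / 3 := by
  have h : cS true - cS false = (2 * aa) • (!₂[1, 0] : P2) := by
    ext k
    fin_cases k <;> simp [cS, sg]; ring
  rw [dist_comm, dist_eq_norm, h, norm_smul, Real.norm_eq_abs, abs_of_pos (by linarith [aa_pos])]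
  have h1 : ‖(!₂[1, 0] : P2)‖ ≤ 1 := norm_le_one (by simp)
  have := aa_pos
  have h2 : 2 * aa = 2 - 2 * √3 / 3 := by unfold aa; ring
  nlinarith

theorem dist_cT : dist (cT false) (cT true) ≤ 2 - 2 * √3 / 3 := by
  have h : cT true - cT false = (2 * aa) • (!₂[0, 1] : P2) := by
    ext k
    fin_cases k <;> simp [cT, sg]; ring
  rw [dist_comm, dist_eq_norm, h, norm_smul, Real.norm_eq_abs, abs_of_pos (by linarith [aa_pos])]
  have h1 : ‖(!₂[0, 1] : P2)‖ ≤ 1 := norm_le_one (by simp)
  have := aa_pos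
  have h2 : 2 * aa = 2 - 2 * √3 / 3 := by unfold aa; ring
  nlinarith

theorem dist_S (c : Bool × Bool) : dist (cS c.1) (tip c) ≤ 2 * √3 / 3 + 1 / 100 := by
  have := s3_pos
  rw [dist_comm, dist_eq_norm, tip_sub_cS, norm_smul, Real.norm_eq_abs,
    abs_of_pos (by positivity)]
  have h1 := norm_w c
  have h2 : 0 < 2 * √3 / 3 + 1 / 100 := by positivity
  nlinarith

theorem dist_T (c : Bool × Bool) : dist (cT c.2) (cor c) ≤ 2 * √3 / 3 := by
  have := s3_pos
  rw [dist_comm, dist_eq_norm, cor_sub_cT, norm_smul, Real.norm_eq_abs,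
    abs_of_pos (by positivity)]
  have h1 := norm_wg c
  have h2 : 0 < 2 * √3 / 3 := by positivity
  nlinarith

theorem dist_tail (c : Bool × Bool) : dist (cor c) (tip c) ≤ 1 / 100 := by
  rw [dist_comm, dist_eq_norm]
  exact ap_near (c, true)

theorem length_SS : μH[1] SS ≤ ENNReal.ofReal (2 + 2 * √3 + 4 / 100) := by
  have := s3_pos
  have := s3_lt
  have h1 : μH[1] SS ≤ ENNReal.ofReal (2 - 2 * √3 / 3) +
      ∑ _c : Bool × Bool, ENNReal.ofReal (2 * √3 / 3 + 1 / 100) := by
    refine (measure_union_le _ _).trans (add_le_add ?_ ?_)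
    · rw [hausdorffMeasure_segment, edist_dist]
      exact ENNReal.ofReal_le_ofReal dist_cS
    · refine (measure_iUnion_fintype_le _ _).trans (sum_le_sum fun c _ => ?_)
      rw [hausdorffMeasure_segment, edist_dist]
      exact ENNReal.ofReal_le_ofReal (dist_S c)
  refine h1.trans (le_of_eq ?_)
  rw [← ENNReal.ofReal_sum_of_nonneg (fun _ _ => by positivity), ← ENNReal.ofReal_add
    (by linarith) (sum_nonneg fun _ _ => by positivity)]
  congr 1
  simp
  ring

theorem length_TT : μH[1] TT ≤ ENNReal.ofReal (2 + 2 * √3 + 4 / 100) := by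
  have := s3_pos
  have := s3_lt
  have h1 : μH[1] TT ≤ (ENNReal.ofReal (2 - 2 * √3 / 3) +
      ∑ _c : Bool × Bool, ENNReal.ofReal (2 * √3 / 3)) +
      ∑ _c : Bool × Bool, ENNReal.ofReal (1 / 100) := by
    refine (measure_union_le _ _).trans (add_le_add
      ((measure_union_le _ _).trans (add_le_add ?_ ?_)) ?_)
    · rw [hausdorffMeasure_segment, edist_dist]
      exact ENNReal.ofReal_le_ofReal dist_cT
    · refine (measure_iUnion_fintype_le _ _).trans (sum_le_sum fun c _ => ?_)
      rw [hausdorffMeasure_segment, edist_dist]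
      exact ENNReal.ofReal_le_ofReal (dist_T c)
    · refine (measure_iUnion_fintype_le _ _).trans (sum_le_sum fun c _ => ?_)
      rw [hausdorffMeasure_segment, edist_dist]
      exact ENNReal.ofReal_le_ofReal (dist_tail c)
  refine h1.trans (le_of_eq ?_)
  rw [← ENNReal.ofReal_sum_of_nonneg (fun _ _ => by positivity),
    ← ENNReal.ofReal_sum_of_nonneg (fun _ _ => by positivity), ← ENNReal.ofReal_add
    (by linarith) (sum_nonneg fun _ _ => by positivity), ← ENNReal.ofReal_add
    (add_nonneg (by linarith) (sum_nonneg fun _ _ => by positivity))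
    (sum_nonneg fun _ _ => by positivity)]
  congr 1
  simp
  ring

theorem compact_seg (x y : P2) : IsCompact (segment ℝ x y) := by
  rw [segment_eq_image_lineMap]
  exact isCompact_Icc.image AffineMap.lineMap_continuous

theorem compact_SS : IsCompact SS :=
  (compact_seg _ _).union (isCompact_iUnion fun _ => compact_seg _ _)

theorem compact_TT : IsCompact TT :=
  ((compact_seg _ _).union (isCompact_iUnion fun _ => compact_seg _ _)).union
    (isCompact_iUnion fun _ => compact_seg _ _)

theorem cS_mem (s : Bool) : cS s ∈ segment ℝ (cS false) (cS true) := by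
  cases s
  · exact left_mem_segment _ _ _
  · exact right_mem_segment _ _ _

theorem cT_mem (s : Bool) : cT s ∈ segment ℝ (cT false) (cT true) := by
  cases s
  · exact left_mem_segment _ _ _
  · exact right_mem_segment _ _ _

theorem pre_seg (x y : P2) : IsPreconnected (segment ℝ x y) := (convex_segment x y).isPreconnected

theorem conn_SS : IsConnected SS := by
  refine ⟨⟨cS false, Or.inl (cS_mem _)⟩, isPreconnected_of_forall (cS false) ?_⟩
  rintro y (hy | hy)
  · exact ⟨segment ℝ (cS false) (cS true), Set.subset_union_left, cS_mem _, hy, pre_seg _ _⟩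
  · obtain ⟨c, hc⟩ := Set.mem_iUnion.1 hy
    exact ⟨segment ℝ (cS false) (cS true) ∪ segment ℝ (cS c.1) (tip c),
      Set.union_subset_union_right _ (Set.subset_iUnion (fun c : Bool × Bool =>
        segment ℝ (cS c.1) (tip c)) c), Or.inl (cS_mem _), Or.inr hc,
      (pre_seg _ _).union (cS c.1) (cS_mem _) (left_mem_segment _ _ _) (pre_seg _ _)⟩

theorem conn_TT : IsConnected TT := by
  refine ⟨⟨cT false, Or.inl (Or.inl (cT_mem _))⟩, isPreconnected_of_forall (cT false) ?_⟩
  have h : ∀ c : Bool × Bool, IsPreconnected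
      (segment ℝ (cT false) (cT true) ∪ segment ℝ (cT c.2) (cor c)) := fun c =>
    (pre_seg _ _).union (cT c.2) (cT_mem _) (left_mem_segment _ _ _) (pre_seg _ _)
  have hsub : ∀ c : Bool × Bool, 
      (segment ℝ (cT false) (cT true) ∪ segment ℝ (cT c.2) (cor c)) ⊆
      (segment ℝ (cT false) (cT true) ∪ ⋃ c : Bool × Bool, segment ℝ (cT c.2) (cor c)) :=
    fun c => Set.union_subset_union_right _ (Set.subset_iUnion (fun c : Bool × Bool =>
        segment ℝ (cT c.2) (cor c)) c)
  rintro y ((hy | hy) | hy)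
  · exact ⟨segment ℝ (cT false) (cT true), Set.subset_union_left.trans Set.subset_union_left,
      cT_mem _, hy, pre_seg _ _⟩
  · obtain ⟨c, hc⟩ := Set.mem_iUnion.1 hy
    exact ⟨segment ℝ (cT false) (cT true) ∪ segment ℝ (cT c.2) (cor c),
      (hsub c).trans Set.subset_union_left, Or.inl (cT_mem _), Or.inr hc, h c⟩
  · obtain ⟨c, hc⟩ := Set.mem_iUnion.1 hy
    exact ⟨(segment ℝ (cT false) (cT true) ∪ segment ℝ (cT c.2) (cor c)) ∪
      segment ℝ (cor c) (tip c), Set.union_subset_union (hsub c)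
        (Set.subset_iUnion (fun c : Bool × Bool => segment ℝ (cor c) (tip c)) c),
      Or.inl (Or.inl (cT_mem _)), Or.inr hc,
      (h c).union (cor c) (Or.inr (right_mem_segment _ _ _)) (left_mem_segment _ _ _)
        (pre_seg _ _)⟩

theorem ap_mem_SS (t : (Bool × Bool) × Bool) : ap t ∈ SS := by
  rcases t with ⟨c, _ | _⟩
  · refine Or.inr (Set.mem_iUnion.2 ⟨c, ?_⟩)
    simp only [ap, Bool.false_eq_true, if_false]
    rw [mem_segment_iff_sameRay, cor_sub_cS, tip, add_sub_cancel_left]
    have := s3_pos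
    exact ((SameRay.refl (w c)).nonneg_smul_left (by positivity)).nonneg_smul_right
      (by norm_num)
  · exact Or.inr (Set.mem_iUnion.2 ⟨c, right_mem_segment _ _ _⟩)

theorem ap_mem_TT (t : (Bool × Bool) × Bool) : ap t ∈ TT := by
  rcases t with ⟨c, _ | _⟩
  · exact Or.inl (Or.inr (Set.mem_iUnion.2 ⟨c, right_mem_segment _ _ _⟩))
  · exact Or.inr (Set.mem_iUnion.2 ⟨c, right_mem_segment _ _ _⟩)

end

end Pool.Agent.T9h59.MDM
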