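import Pool.Agent.R154.Steiner.Net

/-!
Rooted trees in a Euclidean space given by a parent function, flows in them, and the passage from
connected networks to trees.
-/

set_option autoImplicit false

namespace Pool.Agent.T9h59.MDM

open Pool.Agent.R154.Steiner Finset

/-- A tree with the vertices `0, …, m` (root `0`) at the points `p j`. -/
structure PTree (E : Type*) where
  m : ℕ
  par : ℕ → ℕ
  p : ℕ → E
  lt : ∀ j, 0 < j → par j < j
  zero : par 0 = 0

section Comb

variable {E : Type*}

/-- `i` is a vertex different from the root on the way from `j` to the root. -/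
def PTree.Anc (T : PTree E) (i j : ℕ) : Prop := i ≠ 0 ∧ ∃ k, T.par^[k] j = i

theorem PTree.iter_zero (T : PTree E) (k : ℕ) : T.par^[k] 0 = 0 := by
  induction k with
  | zero => rfl
  | succ k ih => rw [Function.iterate_succ_apply', ih, T.zero]

theorem PTree.iter_le (T : PTree E) (k j : ℕ) : T.par^[k] j ≤ j := by
  induction k with
  | zero => exact le_rfl
  | succ k ih =>
    rw [Function.iterate_succ_apply']
    rcases Nat.eq_zero_or_pos (T.par^[k] j) with h | h
    · rw [h, T.zero]; exact Nat.zero_le _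
    · exact (T.lt _ h).le.trans ih

theorem PTree.not_anc_zero (T : PTree E) (i : ℕ) : ¬ T.Anc i 0 := by
  rintro ⟨h, k, hk⟩
  rw [T.iter_zero] at hk
  exact h hk.symm

theorem PTree.anc_le (T : PTree E) {i j : ℕ} (h : T.Anc i j) : i ≤ j := by
  obtain ⟨_, k, rfl⟩ := h
  exact T.iter_le k j

theorem PTree.anc_iff (T : PTree E) {i j : ℕ} (hj : 0 < j) :
    T.Anc i j ↔ i = j ∨ T.Anc i (T.par j) := by
  constructor
  · rintro ⟨h, k, hk⟩
    cases k with
    | zero => exact Or.inl hk.symm
    | succ k => exact Or.inr ⟨h, k, hk⟩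
  · rintro (rfl | ⟨h, k, hk⟩)
    · exact ⟨hj.ne', 0, rfl⟩
    · exact ⟨h, k + 1, hk⟩

theorem PTree.anc_trans (T : PTree E) {i j k : ℕ} (h : T.Anc i j) (h' : T.Anc j k) : T.Anc i k := by
  obtain ⟨h1, a, ha⟩ := h
  obtain ⟨_, b, hb⟩ := h'
  refine ⟨h1, a + b, ?_⟩
  rw [Function.iterate_add_apply, hb, ha]

theorem PTree.anc_total (T : PTree E) {i i' j : ℕ} (h : T.Anc i j) (h' : T.Anc i' j) :
    T.Anc i i' ∨ T.Anc i' i := by
  obtain ⟨h1, a, ha⟩ := h
  obtain ⟨h1', b, hb⟩ := h'
  rcases le_total a b with hab | hab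
  · right
    refine ⟨h1', b - a, ?_⟩
    rw [← ha, ← Function.iterate_add_apply, Nat.sub_add_cancel hab, hb]
  · left
    refine ⟨h1, a - b, ?_⟩
    rw [← hb, ← Function.iterate_add_apply, Nat.sub_add_cancel hab, ha]

/-- Laminarity. -/
theorem PTree.laminar (T : PTree E) (i i' : ℕ) :
    (∀ j, ¬ (T.Anc i j ∧ T.Anc i' j)) ∨ (∀ j, T.Anc i j → T.Anc i' j) ∨
      (∀ j, T.Anc i' j → T.Anc i j) := by
  by_cases h : ∃ j, T.Anc i j ∧ T.Anc i' j
  · obtain ⟨j, h1, h2⟩ := h
    rcases T.anc_total h1 h2 with h3 | h3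
    · exact Or.inr (Or.inr fun k hk => T.anc_trans h3 hk)
    · exact Or.inr (Or.inl fun k hk => T.anc_trans h3 hk)
  · exact Or.inl fun j hj => h ⟨j, hj⟩

end Comb

section Metric

variable {E : Type*} [NormedAddCommGroup E] [InnerProductSpace ℝ E]

open Classical in
/-- The length. -/
noncomputable def PTree.len (T : PTree E) : ℝ := ∑ i ∈ range (T.m + 1), ‖T.p i - T.p (T.par i)‖

omit [InnerProductSpace ℝ E] in
open Classical in
theorem PTree.telescope (T : PTree E) (j : ℕ) (hj : j ≤ T.m) :
    T.p j - T.p 0 = ∑ i ∈ range (T.m + 1), if T.Anc i j then T.p i - T.p (T.par i) else 0 := by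
  induction j using Nat.strong_induction_on with
  | _ j ih =>
    rcases Nat.eq_zero_or_pos j with rfl | hpos
    · rw [sub_self]
      symm
      apply sum_eq_zero
      intro i _
      rw [if_neg (T.not_anc_zero i)]
    · have h1 := ih (T.par j) (T.lt j hpos) ((T.lt j hpos).le.trans hj)
      have h2 : ∀ i ∈ range (T.m + 1), (if T.Anc i j then T.p i - T.p (T.par i) else 0) =
          (if i = j then T.p i - T.p (T.par i) else 0) +
            (if T.Anc i (T.par j) then T.p i - T.p (T.par i) else 0) := by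
        intro i _
        by_cases hij : i = j
        · subst hij
          have h3 : ¬ T.Anc i (T.par i) := fun h => absurd (T.anc_le h) (not_le.2 (T.lt i hpos))
          rw [if_pos ((T.anc_iff hpos).2 (Or.inl rfl)), if_pos rfl, if_neg h3, add_zero]
        · by_cases h3 : T.Anc i (T.par j)
          · rw [if_pos ((T.anc_iff hpos).2 (Or.inr h3)), if_neg hij, if_pos h3, zero_add]
          · have h4 : ¬ T.Anc i j := fun h => ((T.anc_iff hpos).1 h).elim hij h3
            rw [if_neg h4, if_neg hij, if_neg h3, zero_add]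
      rw [sum_congr rfl h2, sum_add_distrib, ← h1, sum_ite_eq', if_pos (mem_range.2 (by omega))]
      abel

open Classical in
/-- Weak duality for the length of a tree. -/
theorem PTree.cert (T : PTree E) {ι : Type*} [Fintype ι] (idx : ι → ℕ) (hidx : ∀ t, idx t ≤ T.m)
    (v : ι → E) (hv : ∑ t, v t = 0)
    (hflow : ∀ i, ‖∑ t, if T.Anc i (idx t) then v t else 0‖ ≤ 1) :
    ∑ t, inner ℝ (v t) (T.p (idx t)) ≤ T.len := by
  have h1 : ∑ t, inner ℝ (v t) (T.p (idx t)) = ∑ t, inner ℝ (v t) (T.p (idx t) - T.p 0) := by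
    have : ∑ t, inner ℝ (v t) (T.p 0) = 0 := by
      rw [← sum_inner, hv, inner_zero_left]
    simp_rw [inner_sub_right]
    rw [sum_sub_distrib, this, sub_zero]
  have h2 : ∀ t, inner ℝ (v t) (T.p (idx t) - T.p 0) =
      ∑ i ∈ range (T.m + 1), inner ℝ (if T.Anc i (idx t) then v t else 0) (T.p i - T.p (T.par i)) := by
    intro t
    rw [T.telescope (idx t) (hidx t), inner_sum]
    apply sum_congr rfl
    intro i _
    split_ifs <;> simp
  rw [h1]
  simp_rw [h2]
  rw [sum_comm]
  unfold PTree.len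
  apply sum_le_sum
  intro i _
  rw [← sum_inner]
  calc inner ℝ (∑ t, if T.Anc i (idx t) then v t else 0) (T.p i - T.p (T.par i))
      ≤ ‖∑ t, if T.Anc i (idx t) then v t else 0‖ * ‖T.p i - T.p (T.par i)‖ :=
        real_inner_le_norm _ _
    _ ≤ 1 * ‖T.p i - T.p (T.par i)‖ := by gcongr; exact hflow i
    _ = _ := one_mul _

open Classical in
/-- Cutting a tree at the edge above the vertex `i`: the part below `i` and the other part have
certificates `a` and `b`, all of whose partial sums have norm at most one. -/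
theorem PTree.cut (T : PTree E) {ι : Type*} [Fintype ι] (idx : ι → ℕ) (hidx : ∀ t, idx t ≤ T.m)
    (i : ℕ) (a b : ι → E) (ha : ∀ t, ¬ T.Anc i (idx t) → a t = 0)
    (hb : ∀ t, T.Anc i (idx t) → b t = 0) (ha0 : ∑ t, a t = 0) (hb0 : ∑ t, b t = 0)
    (ha1 : ∀ D : ι → Prop, ‖∑ t, if D t then a t else 0‖ ≤ 1)
    (hb1 : ∀ D : ι → Prop, ‖∑ t, if D t then b t else 0‖ ≤ 1) :
    ∑ t, inner ℝ (a t) (T.p (idx t)) + ∑ t, inner ℝ (b t) (T.p (idx t)) ≤ T.len := by
  have key := T.cert idx hidx (fun t => a t + b t) (by rw [sum_add_distrib, ha0, hb0, add_zero]) ?_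
  · simp_rw [inner_add_left] at key
    rwa [sum_add_distrib] at key
  · intro k
    have e : (∑ t, if T.Anc k (idx t) then a t + b t else 0) =
        (∑ t, if T.Anc k (idx t) then a t else 0) + (∑ t, if T.Anc k (idx t) then b t else 0) := by
      rw [← sum_add_distrib]
      apply sum_congr rfl
      intro t _
      split_ifs <;> simp
    rw [e]
    rcases T.laminar k i with h | h | h
    · have h0 : (∑ t, if T.Anc k (idx t) then a t else 0) = 0 := by
        apply sum_eq_zero
        intro t _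
        split_ifs with h1
        · exact ha t fun h2 => h _ ⟨h1, h2⟩
        · rfl
      rw [h0, zero_add]
      exact hb1 _
    · have h0 : (∑ t, if T.Anc k (idx t) then b t else 0) = 0 := by
        apply sum_eq_zero
        intro t _
        split_ifs with h1
        · exact hb t (h _ h1)
        · rfl
      rw [h0, add_zero]
      exact ha1 _
    · have h0 : (∑ t, if T.Anc k (idx t) then a t else 0) = 0 := by
        refine Eq.trans ?_ ha0
        apply sum_congr rfl
        intro t _
        by_cases h1 : T.Anc i (idx t)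
        · rw [if_pos (h _ h1)]
        · rw [ha t h1]; simp
      rw [h0, zero_add]
      exact hb1 _

end Metric

section Net

variable {E : Type*} [NormedAddCommGroup E] [InnerProductSpace ℝ E]

/-- A tree whose edges are different edges of the network. -/
def Grow {κ : Type} (y : κ × Bool → E) (T : PTree E) (e : ℕ → κ) : Prop :=
  (∃ σ, T.p 0 = y σ) ∧
  (∀ i, 0 < i → i ≤ T.m → (T.p i = y (e i, false) ∧ T.p (T.par i) = y (e i, true)) ∨
    (T.p i = y (e i, true) ∧ T.p (T.par i) = y (e i, false))) ∧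
  (∀ i j, 0 < i → i ≤ T.m → 0 < j → j ≤ T.m → e i = e j → i = j)

theorem grow_step {κ : Type} (y : κ × Bool → E) (hy : Conn y) (T : PTree E) (e : ℕ → κ)
    (h : Grow y T e) (hn : ¬ ∀ σ, ∃ j ≤ T.m, T.p j = y σ) :
    ∃ (T' : PTree E) (e' : ℕ → κ), T'.m = T.m + 1 ∧ Grow y T' e' := by
  obtain ⟨⟨σ0, hσ0⟩, hedge, hinj⟩ := h
  -- a link from a covered to an uncovered slot
  have hlink : ∃ σ τ, (∃ j ≤ T.m, T.p j = y σ) ∧ (¬ ∃ j ≤ T.m, T.p j = y τ) ∧ σ.1 = τ.1 := by
    by_contra hcon
    apply hn
    have key : ∀ σ τ, Relation.EqvGen (Link y) σ τ →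
        ((∃ j ≤ T.m, T.p j = y σ) ↔ (∃ j ≤ T.m, T.p j = y τ)) := by
      intro σ τ hστ
      induction hστ with
      | rel σ τ hl =>
        rcases hl with hl | hl
        · rw [hl]
        · constructor
          · intro h1
            by_contra h2
            exact hcon ⟨σ, τ, h1, h2, hl⟩
          · intro h1
            by_contra h2
            exact hcon ⟨τ, σ, h1, h2, hl.symm⟩
      | refl => exact Iff.rfl
      | symm _ _ _ ih => exact ih.symm
      | trans _ _ _ _ _ ih1 ih2 => exact ih1.trans ih2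
    intro σ
    exact (key σ0 σ (hy σ0 σ)).1 ⟨0, Nat.zero_le _, hσ0⟩
  obtain ⟨σ, τ, ⟨j, hj, hpj⟩, hτ, hστ⟩ := hlink
  have hne : σ.2 ≠ τ.2 := by
    intro h
    exact hτ ⟨j, hj, by rw [hpj, show σ = τ from Prod.ext hστ h]⟩
  refine ⟨⟨T.m + 1, fun i => if i = T.m + 1 then j else T.par i,
    fun i => if i = T.m + 1 then y τ else T.p i, ?_, ?_⟩,
    fun i => if i = T.m + 1 then τ.1 else e i, rfl, ?_, ?_, ?_⟩
  · intro i hi
    split_ifs with h1
    · omega
    · exact T.lt i hi
  · rw [if_neg (by omega)]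
    exact T.zero
  · exact ⟨σ0, by dsimp only; rw [if_neg (by omega)]; exact hσ0⟩
  · intro i hi him
    dsimp only at him ⊢
    by_cases h1 : i = T.m + 1
    · have h2 : j ≠ T.m + 1 := by omega
      rw [if_pos h1, if_pos h1, if_pos h1, if_neg h2, hpj]
      rcases hb : τ.2 with _ | _
      · left
        have hs : σ.2 = true := by
          rcases hc : σ.2 with _ | _
          · exact absurd (hc.trans hb.symm) hne
          · rfl
        exact ⟨congrArg y (Prod.ext rfl hb), congrArg y (Prod.ext hστ hs)⟩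
      · right
        have hs : σ.2 = false := by
          rcases hc : σ.2 with _ | _
          · rfl
          · exact absurd (hc.trans hb.symm) hne
        exact ⟨congrArg y (Prod.ext rfl hb), congrArg y (Prod.ext hστ hs)⟩
    · have h2 : T.par i ≠ T.m + 1 := by
        have := T.lt i hi
        omega
      rw [if_neg h1, if_neg h1, if_neg h1, if_neg h2]
      exact hedge i hi (by omega)
  · -- the new edge was not used
    have hnew : ∀ i, 0 < i → i ≤ T.m → e i ≠ τ.1 := by
      intro i hi him he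
      apply hτ
      rcases hedge i hi him with ⟨h1, h2⟩ | ⟨h1, h2⟩
      · rcases hb : τ.2 with _ | _
        · exact ⟨i, him, by rw [h1, he]; exact congrArg y (Prod.ext rfl hb.symm)⟩
        · exact ⟨T.par i, (T.lt i hi).le.trans him,
            by rw [h2, he]; exact congrArg y (Prod.ext rfl hb.symm)⟩
      · rcases hb : τ.2 with _ | _
        · exact ⟨T.par i, (T.lt i hi).le.trans him,
            by rw [h2, he]; exact congrArg y (Prod.ext rfl hb.symm)⟩
        · exact ⟨i, him, by rw [h1, he]; exact congrArg y (Prod.ext rfl hb.symm)⟩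
    intro a b ha1 ha2 hb1 hb2 hab
    dsimp only at ha2 hb2 hab
    by_cases h1 : a = T.m + 1
    · by_cases h2 : b = T.m + 1
      · rw [h1, h2]
      · rw [if_pos h1, if_neg h2] at hab
        exact absurd hab.symm (hnew b hb1 (by omega))
    · by_cases h2 : b = T.m + 1
      · rw [if_neg h1, if_pos h2] at hab
        exact absurd hab (hnew a ha1 (by omega))
      · rw [if_neg h1, if_neg h2] at hab
        exact hinj a b ha1 (by omega) hb1 (by omega) hab

theorem exists_tree {κ : Type} [Fintype κ] [Nonempty κ] (y : κ × Bool → E) (hy : Conn y) :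
    ∃ T : PTree E, (∀ σ, ∃ j ≤ T.m, T.p j = y σ) ∧
      T.len ≤ ∑ k, dist (y (k, false)) (y (k, true)) := by
  classical
  have hcard : ∀ (T : PTree E) (e : ℕ → κ), Grow y T e → T.m ≤ Fintype.card κ := by
    intro T e h
    have h1 : ((Icc 1 T.m).image e).card = T.m := by
      rw [card_image_of_injOn]
      · simp
      · intro a ha b hb hab
        simp only [coe_Icc, Set.mem_Icc] at ha hb
        exact h.2.2 a b ha.1 ha.2 hb.1 hb.2 hab
    rw [← h1]
    exact card_le_univ _
  have hex : ∃ (T : PTree E) (e : ℕ → κ), Grow y T e ∧ ∀ σ, ∃ j ≤ T.m, T.p j = y σ := by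
    by_contra hcon
    have h1 : ∀ n : ℕ, ∃ (T : PTree E) (e : ℕ → κ), T.m = n ∧ Grow y T e := by
      intro n
      induction n with
      | zero =>
        obtain ⟨k⟩ := ‹Nonempty κ›
        refine ⟨⟨0, fun _ => 0, fun _ => y (k, false), fun j hj => hj, rfl⟩, fun _ => k, rfl,
          ⟨(k, false), rfl⟩, ?_, ?_⟩
        · intro i h1 h2
          dsimp only at h2
          omega
        · intro i j h1 h2
          dsimp only at h2
          omega
      | succ n ih =>
        obtain ⟨T, e, hT, hG⟩ := ih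
        obtain ⟨T', e', h1, h2⟩ := grow_step y hy T e hG fun h => hcon ⟨T, e, hG, h⟩
        exact ⟨T', e', by rw [h1, hT], h2⟩
    obtain ⟨T, e, hT, hG⟩ := h1 (Fintype.card κ + 1)
    have := hcard T e hG
    omega
  obtain ⟨T, e, hG, hcov⟩ := hex
  refine ⟨T, hcov, ?_⟩
  unfold PTree.len
  have h1 : ∑ i ∈ range (T.m + 1), ‖T.p i - T.p (T.par i)‖ =
      ∑ i ∈ Icc 1 T.m, ‖T.p i - T.p (T.par i)‖ := by
    have : range (T.m + 1) = insert 0 (Icc 1 T.m) := by
      ext a
      simp only [mem_range, mem_insert, mem_Icc]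
      omega
    rw [this, sum_insert (by simp), T.zero, sub_self, norm_zero, zero_add]
  rw [h1]
  have h2 : ∀ i ∈ Icc 1 T.m, ‖T.p i - T.p (T.par i)‖ = dist (y (e i, false)) (y (e i, true)) := by
    intro i hi
    rw [mem_Icc] at hi
    rcases hG.2.1 i hi.1 hi.2 with ⟨a, b⟩ | ⟨a, b⟩
    · rw [a, b, dist_eq_norm]
    · rw [a, b, dist_comm, dist_eq_norm]
  rw [sum_congr rfl h2]
  have h3 : ∑ i ∈ Icc 1 T.m, dist (y (e i, false)) (y (e i, true)) =
      ∑ k ∈ (Icc 1 T.m).image e, dist (y (k, false)) (y (k, true)) := by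
    rw [sum_image]
    intro a ha b hb hab
    simp only [coe_Icc, Set.mem_Icc] at ha hb
    exact hG.2.2 a b ha.1 ha.2 hb.1 hb.2 hab
  rw [h3]
  exact sum_le_sum_of_subset_of_nonneg (subset_univ _) fun _ _ _ => dist_nonneg

end Net

end Pool.Agent.T9h59.MDM
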